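import Pool.Agent.W622.ETC.Stm

set_option autoImplicit false

/-!
Two good blocks.
-/

namespace Pool.Agent.W125.ELT

open Pool.Agent.W622.ETC Module

/-- uniqueness of a decomposition with respect to disjoint subspaces -/
theorem disj_unique {M : Type*} [AddCommGroup M] [Module (ZMod 2) M] {X Y : Submodule (ZMod 2) M}
    (h : Disjoint X Y) {a a' b b' : M} (ha : a ∈ X) (ha' : a' ∈ X) (hb : b ∈ Y) (hb' : b' ∈ Y)
    (he : a + b = a' + b') : a = a' := by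
  have h1 : a - a' = b' - b := by
    have : a - a' = a + b - (a' + b) := by abel
    rw [this, he]
    abel
  have h2 : a - a' ∈ X ⊓ Y := ⟨X.sub_mem ha ha', h1 ▸ Y.sub_mem hb' hb⟩
  rw [h.eq_bot, Submodule.mem_bot] at h2
  exact sub_eq_zero.1 h2

/-- HH -/
theorem t_HH (hCB1 : S_CB1) (hOM : S_OM) (hSPLIT : S_SPLIT) (hBDIS : S_BDIS) : S_HH := by
  intro V _ _ _ A X₁ X₂ x₁ x₂ ζ a hCB hX₁ hX₂ hne hx₁ hx₂ hx₁0 hζ hζa hom
  have hMC := hCB.mc
  have hA := hMC.alt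
  have hlink : Linked A := hMC.her.linked
  -- blocks are local
  have hloc : ∀ X : DSub V, Block A X → LocBlock A X := by
    intro X hX
    rcases hX with h | h
    · exact absurd h.1 (hCB.nc X)
    · exact h
  obtain ⟨h1A, h10, h1s, h1r, -, -⟩ := hOM V A X₁ hA (hloc X₁ hX₁.1)
  obtain ⟨h2A, h20, h2s, h2r, -, -⟩ := hOM V A X₂ hA (hloc X₂ hX₂.1)
  have hdis : Disjoint X₁ X₂ := hBDIS V A X₁ X₂ hMC hX₁ hX₂.1 hne
  set o1 := om A X₁ with ho1
  set o2 := om A X₂ with ho2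
  have a1 := hA o1 h1A
  have a2 := hA o2 h2A
  have hdis' : Disjoint (sp o1) (sp o2) := by rw [h1s, h2s]; exact hdis
  set θ := o1 + o2 with hθ
  have hθA : θ ∈ A := A.add_mem h1A h2A
  have hθs : sp θ = X₁ ⊔ X₂ := by
    rw [hθ, sp_add a1 a2 hdis', h1s, h2s]
  -- h is nonzero
  have hh0 : x₁ + x₂ ≠ 0 := by
    intro h
    have h3 : x₁ = x₂ := add_eq_zero'.mp h
    have h4 : x₁ ∈ X₁ ⊓ X₂ := ⟨hx₁, h3 ▸ hx₂⟩
    rw [hdis.eq_bot, Submodule.mem_bot] at h4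
    exact hx₁0 h4
  have ha0 : a ≠ 0 := by
    rintro rfl
    rw [map_zero] at hζa
    exact hh0 hζa.symm
  -- a point of C
  obtain ⟨v1, hv1⟩ : ∃ v, o1 v = x₁ := by
    have : x₁ ∈ sp o1 := by rw [h1s]; exact hx₁
    exact mem_sp.1 this
  obtain ⟨v2, hv2⟩ : ∃ v, o2 v = x₂ := by
    have : x₂ ∈ sp o2 := by rw [h2s]; exact hx₂
    exact mem_sp.1 this
  obtain ⟨v₀, hg1, hg2⟩ := exists_glue hdis v1 v2
  have hv01 : o1 v₀ = x₁ := by
    rw [← hv1]
    refine LinearMap.ext fun b => ?_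
    rw [a1.symm v₀ b, a1.symm v1 b]
    exact hg1 _ (by rw [← h1s]; exact ⟨b, rfl⟩)
  have hv02 : o2 v₀ = x₂ := by
    rw [← hv2]
    refine LinearMap.ext fun b => ?_
    rw [a2.symm v₀ b, a2.symm v2 b]
    exact hg2 _ (by rw [← h2s]; exact ⟨b, rfl⟩)
  have hθv0 : θ v₀ = x₁ + x₂ := by
    rw [hθ, LinearMap.add_apply, hv01, hv02]
  -- the linked forms
  have hex : ∀ w : LinearMap.ker θ, ∃ η ∈ A, η (v₀ + w.1) = x₁ + x₂ ∧ η a = x₁ + x₂ := by
    intro w
    have hw : θ (v₀ + w.1) = x₁ + x₂ := by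
      rw [map_add, hθv0, LinearMap.mem_ker.1 w.2, add_zero]
    obtain ⟨η, hη, h3, h4⟩ := hlink θ hθA ζ hζ (v₀ + w.1) a (by rw [hw, hζa])
    exact ⟨η, hη, by rw [h3, hw], by rw [h4, hw]⟩
  choose η hηA hη1 hη2 using hex
  -- the claim
  have claim : ∀ (w : LinearMap.ker θ) (b : V), b ≠ 0 → θ b = 0 → η w b = 0 → False := by
    intro w b hb hθb hηb
    obtain ⟨hb1, hb2⟩ := (add_ker (le_of_eq h1s) (le_of_eq h2s) hdis).1 hθb
    have hX1b : X₁ ≤ ann b := by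
      rw [← h1s]
      exact a1.ker_iff_ann.1 hb1
    have hX2b : X₂ ≤ ann b := by
      rw [← h2s]
      exact a2.ker_iff_ann.1 hb2
    obtain ⟨hcomp, -, -⟩ := hCB1 V A b hCB hb
    have ht : ({X₁, X₂} : Set (DSub V)) ⊆ BL A b := by
      rintro X (rfl | rfl)
      · exact ⟨hX₁.1, hX1b⟩
      · exact ⟨hX₂.1, hX2b⟩
    obtain ⟨hs1, hs2, hs3⟩ := hSPLIT V (res A (ann b)) (BL A b) {X₁, X₂} (hA.res _) hcomp ht
    have hsup : sSup ({X₁, X₂} : Set (DSub V)) = X₁ ⊔ X₂ := sSup_pair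
    have hmem : η w ∈ res A (ann b) := (mem_res_ann hA).2 ⟨hηA w, hηb⟩
    rw [hs1] at hmem
    obtain ⟨μ, hμ, ν, hν, hμν⟩ := Submodule.mem_sup.1 hmem
    have hμa : μ a = x₁ + x₂ := by
      have e : (x₁ + x₂) + 0 = μ a + ν a := by
        rw [add_zero, ← hη2 w, ← hμν, LinearMap.add_apply]
      refine (disj_unique hs2 ?_ (hμ.2 a) (Submodule.zero_mem _) (hν.2 a) e).symm
      rw [hsup]
      exact Submodule.add_mem_sup hx₁ hx₂
    have hμ2 : μ ∈ ⨆ X ∈ ({X₁, X₂} : Set (DSub V)), res (res (res A (ann b))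
        (sSup ({X₁, X₂} : Set (DSub V)))) X := by
      rw [← hs3.2.1]
      exact hμ
    rw [iSup_pair] at hμ2
    obtain ⟨μ1, hμ1, μ2, hμ2', hμ12⟩ := Submodule.mem_sup.1 hμ2
    have m1 : μ1 ∈ res A X₁ := ⟨hμ1.1.1.1, hμ1.2⟩
    have m2 : μ2 ∈ res A X₂ := ⟨hμ2'.1.1.1, hμ2'.2⟩
    have e1 : μ1 a = x₁ := by
      refine disj_unique hdis (m1.2 a) hx₁ (m2.2 a) hx₂ ?_
      rw [← hμa, ← hμ12, LinearMap.add_apply]
    rcases h1r μ1 m1 with h5 | h5
    · rw [h5] at e1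
      exact hx₁0 e1.symm
    · rw [h5] at e1
      exact hom e1
  -- the injective map
  have hker0 : (0 : V) ∈ LinearMap.ker θ := Submodule.zero_mem _
  let F : LinearMap.ker θ → res A (ann a) := fun w => ⟨η w + η ⟨0, hker0⟩, by
    rw [mem_res_ann hA]
    refine ⟨A.add_mem (hηA _) (hηA _), ?_⟩
    rw [LinearMap.add_apply, hη2, hη2, vadd]⟩
  have hF : Function.Injective F := by
    intro w w' hww
    have h3 : η w + η ⟨0, hker0⟩ = η w' + η ⟨0, hker0⟩ := congrArg Subtype.val hww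
    have h4 : η w = η w' := LinearMap.ext fun x => by
      have h5 := LinearMap.congr_fun h3 x
      rw [LinearMap.add_apply, LinearMap.add_apply] at h5
      exact add_right_cancel h5
    by_contra hne'
    have hb : w.1 + w'.1 ≠ 0 := by
      intro h
      exact hne' (Subtype.ext (add_eq_zero'.mp h))
    refine claim w (w.1 + w'.1) hb ?_ ?_
    · rw [map_add, LinearMap.mem_ker.1 w.2, LinearMap.mem_ker.1 w'.2, add_zero]
    · have h5 : w.1 + w'.1 = (v₀ + w.1) + (v₀ + w'.1) := by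
        have : (v₀ + w.1) + (v₀ + w'.1) = (v₀ + v₀) + (w.1 + w'.1) := by abel
        rw [this, vadd, zero_add]
      rw [h5, map_add, hη1 w]
      rw [h4, hη1 w', vadd]
  have hcard : Nat.card (LinearMap.ker θ) ≤ Nat.card (res A (ann a)) :=
    Nat.card_le_card_of_injective F hF
  have c1 : Nat.card (LinearMap.ker θ) = 2 ^ finrank (ZMod 2) (LinearMap.ker θ) := by
    rw [Module.natCard_eq_pow_finrank (K := ZMod 2), Nat.card_zmod]
  have c2 := @Module.natCard_eq_pow_finrank (ZMod 2) (res A (ann a)) _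
    (Submodule.addCommGroup (R := ZMod 2) (M := Frm V) (res A (ann a))) _ _
  rw [Nat.card_zmod] at c2
  rw [c1, c2] at hcard
  have hle := (Nat.pow_le_pow_iff_right (by norm_num : 1 < 2)).1 hcard
  obtain ⟨-, hfr, -⟩ := hCB1 V A a hCB ha0
  have hsum := finrank_sp_add_ker θ
  have hsup := Submodule.finrank_sup_add_finrank_inf_eq X₁ X₂
  have hspf : finrank (ZMod 2) (sp θ) = finrank (ZMod 2) (X₁ ⊔ X₂ : DSub V) := by rw [hθs]
  rw [hfr] at hle
  omega

end Pool.Agent.W125.ELT
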